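import Pool.Agent.H24.PGram

set_option autoImplicit false

open Pool.Agent.H24.PGram

/-- Every propagating programmed grammar has an equivalent propagating programmed grammar in
one-ND rule normal form. -/
theorem Pool.Agent.Results.MP_67c3d0_lc.OneND.result (T : Type) [Finite T] (G : PG T)
    (hG : G.Propagating) : ∃ H : PG T, H.Propagating ∧ H.OneND ∧ H.lang = G.lang :=
  final G hG
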